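import Pool.Agent.L7h32.SC.Dif

set_option autoImplicit false
set_option linter.unusedSectionVars false
set_option linter.deprecated false

/-!
# The lower bound with the Fisher information
-/

open MeasureTheory Set Filter Topology Real
open scoped ENNReal

namespace Pool.Agent.L7h32.SC

open Pool.Agent.L7h99.LS Pool.Agent.L7h99.SC
open Pool.Agent.L7h76.LS (G_int G_one dir_cont dir_supp sq_supp t_LOW)

variable {d n : ℕ}

lemma dn_C1 {f : Fin n → (Fin d → ℝ) → ℝ} (hf : ∀ i, ContDiff ℝ 1 (f i)) :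
    ContDiff ℝ 1 (den f) := by
  unfold den
  exact ContDiff.sum fun i _ => (hf i).pow 2

lemma dn_supp {f : Fin n → (Fin d → ℝ) → ℝ} (hs : ∀ i, HasCompactSupport (f i)) :
    HasCompactSupport (den f) := by
  refine HasCompactSupport.intro (isCompact_iUnion fun i => (hs i).isCompact) ?_
  intro x hx
  rw [Set.mem_iUnion, not_exists] at hx
  unfold den
  apply Finset.sum_eq_zero
  intro i _
  have h1 : f i x = 0 := by
    by_contra h
    exact hx i (subset_tsupport _ h)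
  rw [h1]
  simp

lemma dn_nn (f : Fin n → (Fin d → ℝ) → ℝ) (x : Fin d → ℝ) : 0 ≤ den f x :=
  Finset.sum_nonneg fun _ _ => sq_nonneg _

/-- The square root of the regularised density. -/
noncomputable def Fq (δ : ℝ) (f : Fin n → (Fin d → ℝ) → ℝ) (x : Fin d → ℝ) : ℝ := √(den f x + δ)

/-- The same without the constant. -/
noncomputable def Ps (δ : ℝ) (f : Fin n → (Fin d → ℝ) → ℝ) (x : Fin d → ℝ) : ℝ :=
  √(den f x + δ) - √δ

/-- The test function. -/
noncomputable def Ph (δ : ℝ) (f : Fin n → (Fin d → ℝ) → ℝ) (x : Fin d → ℝ) : ℝ :=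
  den f x / √(den f x + δ)

section

variable {δ : ℝ} (hδ : 0 < δ) {f : Fin n → (Fin d → ℝ) → ℝ} (hf : ∀ i, ContDiff ℝ 1 (f i))
  (hs : ∀ i, HasCompactSupport (f i))

include hδ

lemma dn_pos (f : Fin n → (Fin d → ℝ) → ℝ) (x : Fin d → ℝ) : 0 < den f x + δ := by
  have := dn_nn f x
  linarith

omit hδ in
lemma Fq_ge (x : Fin d → ℝ) : √δ ≤ Fq δ f x :=
  Real.sqrt_le_sqrt (by have := dn_nn f x; linarith)

lemma Fq_pos (x : Fin d → ℝ) : 0 < Fq δ f x := Real.sqrt_pos.2 (dn_pos hδ f x)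

lemma Fq_sq (x : Fin d → ℝ) : Fq δ f x ^ 2 = den f x + δ := Real.sq_sqrt (dn_pos hδ f x).le

include hf

lemma Fq_C1 : ContDiff ℝ 1 (Fq δ f) := by
  unfold Fq
  exact ((dn_C1 hf).add contDiff_const).sqrt fun x => (dn_pos hδ f x).ne'

lemma Ps_C1 : ContDiff ℝ 1 (Ps δ f) := (Fq_C1 hδ hf).sub contDiff_const

lemma Ph_C1 : ContDiff ℝ 1 (Ph δ f) :=
  (dn_C1 hf).div (Fq_C1 hδ hf) fun x => (Fq_pos hδ x).ne'

lemma pd_Ps (k : Fin d) (x : Fin d → ℝ) : LTd.pd k (Ps δ f) x = LTd.pd k (Fq δ f) x := by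
  unfold LTd.pd
  have h : fderiv ℝ (Ps δ f) x = fderiv ℝ (Fq δ f) x := by
    have : Ps δ f = fun x => Fq δ f x - √δ := rfl
    rw [this, fderiv_sub_const]
  rw [h]

lemma pd_Fq (k : Fin d) (x : Fin d → ℝ) :
    LTd.pd k (Fq δ f) x = LTd.pd k (den f) x / (2 * Fq δ f x) := by
  have h1 : HasFDerivAt (den f) (fderiv ℝ (den f) x) x :=
    ((dn_C1 hf).differentiable one_ne_zero x).hasFDerivAt
  have h2 := (h1.add_const δ).sqrt (dn_pos hδ f x).ne'
  unfold LTd.pd
  have h3 : fderiv ℝ (Fq δ f) x = (1 / (2 * √(den f x + δ))) • fderiv ℝ (den f) x := h2.fderiv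
  rw [h3, ContinuousLinearMap.smul_apply, smul_eq_mul, Fq]
  ring

lemma pd_Ph (k : Fin d) (x : Fin d → ℝ) : LTd.pd k (Ph δ f) x =
    (LTd.pd k (den f) x * Fq δ f x - den f x * LTd.pd k (Fq δ f) x) / Fq δ f x ^ 2 := by
  have h1 : HasFDerivAt (den f) (fderiv ℝ (den f) x) x :=
    ((dn_C1 hf).differentiable one_ne_zero x).hasFDerivAt
  have h2 : HasFDerivAt (Fq δ f) (fderiv ℝ (Fq δ f) x) x :=
    ((Fq_C1 hδ hf).differentiable one_ne_zero x).hasFDerivAt
  have h3 : HasFDerivAt (fun x => (Fq δ f x)⁻¹) (-(Fq δ f x ^ 2)⁻¹ • fderiv ℝ (Fq δ f) x) x :=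
    (hasDerivAt_inv (Fq_pos hδ x).ne').comp_hasFDerivAt x h2
  have h4 := h1.mul h3
  unfold LTd.pd
  have h5 : fderiv ℝ (Ph δ f) x = den f x • (-(Fq δ f x ^ 2)⁻¹ • fderiv ℝ (Fq δ f) x) +
      (Fq δ f x)⁻¹ • fderiv ℝ (den f) x := by
    rw [← h4.fderiv]
    rfl
  rw [h5]
  simp only [ContinuousLinearMap.add_apply, ContinuousLinearMap.smul_apply, smul_eq_mul]
  have h6 := (Fq_pos hδ (f := f) x).ne'
  field_simp
  ring

include hs

omit hδ hf in
lemma Ps_supp : HasCompactSupport (Ps δ f) := by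
  have h := (dn_supp hs).comp_left (g := fun t => √(t + δ) - √δ) (by simp)
  exact h

omit hδ hf in
lemma Ph_supp : HasCompactSupport (Ph δ f) := by
  have h := (dn_supp hs).comp_left (g := fun t => t / √(t + δ)) (by simp)
  exact h

/-- The limit in [DIF] is at least a quarter of the Fisher information. -/
lemma fis_le_lim : 1 / 4 * fis δ f ≤ ∫ x, ∑ k, LTd.pd k (Ph δ f) x * LTd.pd k (Ps δ f) x := by
  unfold fis
  rw [← integral_const_mul]
  have hc : ∀ k : Fin d, Continuous (LTd.pd k (den f)) := fun k => dir_cont (dn_C1 hf) _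
  have hcs : ∀ k : Fin d, HasCompactSupport (LTd.pd k (den f)) := fun k => dir_supp (dn_supp hs) _
  refine integral_mono ?_ ?_ ?_
  · apply Integrable.const_mul
    apply integrable_finsetSum
    intro k _
    apply Continuous.integrable_of_hasCompactSupport
    · exact ((hc k).pow 2).div ((dn_C1 hf).continuous.add continuous_const)
        fun x => (dn_pos hδ f x).ne'
    · have h1 : (fun x => LTd.pd k (den f) x ^ 2 / (den f x + δ)) =
          (fun x => LTd.pd k (den f) x) * fun x => LTd.pd k (den f) x / (den f x + δ) := by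
        funext x
        rw [Pi.mul_apply, sq, mul_div_assoc]
      rw [h1]
      exact (hcs k).mul_right
  · apply integrable_finsetSum
    intro k _
    apply Continuous.integrable_of_hasCompactSupport
    · exact (dir_cont (Ph_C1 hδ hf) _).mul (dir_cont (Ps_C1 hδ hf) _)
    · exact (dir_supp (Ph_supp hs) _).mul_right
  · intro x
    beta_reduce
    rw [Finset.mul_sum]
    apply Finset.sum_le_sum
    intro k _
    rw [pd_Ps hδ hf, pd_Ph hδ hf, pd_Fq hδ hf]
    set p := LTd.pd k (den f) x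
    have hF := Fq_pos hδ (f := f) x
    have hF2 := Fq_sq hδ (f := f) x
    rw [← hF2]
    set F := Fq δ f x
    have h1 : (p * F - den f x * (p / (2 * F))) / F ^ 2 * (p / (2 * F)) =
        p ^ 2 / (2 * F ^ 2) * (1 - den f x / (2 * F ^ 2)) := by
      field_simp
    rw [h1]
    have h2 : den f x / (2 * F ^ 2) ≤ 1 / 2 := by
      rw [div_le_div_iff₀ (by positivity) (by norm_num)]
      rw [hF2]
      linarith
    have h3 : 0 ≤ p ^ 2 / (2 * F ^ 2) := by positivity
    have h4 : 1 / 4 * (p ^ 2 / F ^ 2) = p ^ 2 / (2 * F ^ 2) * (1 / 2) := by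
      field_simp
      ring
    rw [h4]
    exact mul_le_mul_of_nonneg_left (by linarith) h3

/-- The heat average of the square root. -/
lemma hv_Fq {τ : ℝ} (hτ : 0 < τ) (x : Fin d → ℝ) :
    Hv τ (Fq δ f) x = √δ + Hv τ (Ps δ f) x := by
  obtain ⟨M, hM⟩ := (Ps_C1 hδ hf).continuous.bounded_above_of_compact_support (Ps_supp hs)
  have i1 : Integrable fun z => G τ z * Ps δ f (x - z) :=
    int_G_mul hτ ((Ps_C1 hδ hf).continuous.comp (by fun_prop)) (M := M)
      fun z => by rw [← Real.norm_eq_abs]; exact hM _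
  rw [hv_eq, hv_eq]
  have h1 : ∀ z, G τ z * Fq δ f (x - z) = G τ z * √δ + G τ z * Ps δ f (x - z) := by
    intro z
    have : Fq δ f (x - z) = √δ + Ps δ f (x - z) := by
      unfold Fq Ps
      ring
    rw [this]
    ring
  simp only [h1]
  rw [integral_add ((G_int hτ).mul_const _) i1, integral_mul_const, G_one hτ, one_mul]

lemma hv_ge {τ : ℝ} (hτ : 0 < τ) (x : Fin d → ℝ) : √δ ≤ Hv τ (Fq δ f) x := by
  rw [hv_Fq hδ hf hs hτ, hv_eq]
  have h1 : 0 ≤ ∫ z, G τ z * Ps δ f (x - z) := by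
    apply integral_nonneg
    intro z
    refine mul_nonneg (G_nonneg _ _) ?_
    have := Fq_ge (δ := δ) (f := f) (x - z)
    unfold Ps
    unfold Fq at this
    linarith
  linarith

lemma hvF_C1 {τ : ℝ} (hτ : 0 < τ) : ContDiff ℝ 1 (Hv τ (Fq δ f)) := by
  have h1 : Hv τ (Fq δ f) = fun x => √δ + Hv τ (Ps δ f) x := by
    funext x
    exact hv_Fq hδ hf hs hτ x
  rw [h1]
  exact contDiff_const.add (hv_contDiff hτ (Ps_C1 hδ hf) (Ps_supp hs))

lemma pd_hvF {τ : ℝ} (hτ : 0 < τ) (k : Fin d) (x : Fin d → ℝ) :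
    LTd.pd k (Hv τ (Fq δ f)) x = LTd.pd k (Hv τ (Ps δ f)) x := by
  have h1 : Hv τ (Fq δ f) = fun x => √δ + Hv τ (Ps δ f) x := by
    funext x
    exact hv_Fq hδ hf hs hτ x
  unfold LTd.pd
  rw [h1, fderiv_const_add]

/-- The multiplier. -/
lemma mm_eq {τ a : ℝ} (hτ : 0 < τ) (x : Fin d → ℝ) : DD' τ δ f x ^ a =
    Real.exp (a * (Real.log (Fq δ f x) - Real.log (Hv τ (Fq δ f) x))) := by
  have hF := Fq_pos hδ (f := f) x
  have hH : 0 < Hv τ (Fq δ f) x := (Real.sqrt_pos.2 hδ).trans_le (hv_ge hδ hf hs hτ x)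
  have h1 : DD' τ δ f x = Fq δ f x / Hv τ (Fq δ f) x := rfl
  rw [h1, Real.rpow_def_of_pos (div_pos hF hH), Real.log_div hF.ne' hH.ne', mul_comm]

lemma mm_C1 {τ a : ℝ} (hτ : 0 < τ) : ContDiff ℝ 1 (fun x => DD' τ δ f x ^ a) := by
  have h1 : (fun x => DD' τ δ f x ^ a) = fun x =>
      Real.exp (a * (Real.log (Fq δ f x) - Real.log (Hv τ (Fq δ f) x))) := by
    funext x
    exact mm_eq hδ hf hs hτ x
  rw [h1]
  have hH : ∀ x, Hv τ (Fq δ f) x ≠ 0 := fun x =>
    ((Real.sqrt_pos.2 hδ).trans_le (hv_ge hδ hf hs hτ x)).ne'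
  exact (contDiff_const.mul (((Fq_C1 hδ hf).log fun x => (Fq_pos hδ x).ne').sub
    ((hvF_C1 hδ hf hs hτ).log hH))).exp

lemma pd_mm {τ a : ℝ} (hτ : 0 < τ) (k : Fin d) (x : Fin d → ℝ) :
    LTd.pd k (fun x => DD' τ δ f x ^ a) x = DD' τ δ f x ^ a * (a *
      ((Fq δ f x)⁻¹ * LTd.pd k (Fq δ f) x -
        (Hv τ (Fq δ f) x)⁻¹ * LTd.pd k (Hv τ (Fq δ f)) x)) := by
  have h1 : (fun x => DD' τ δ f x ^ a) = fun x =>
      Real.exp (a * (Real.log (Fq δ f x) - Real.log (Hv τ (Fq δ f) x))) := by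
    funext x
    exact mm_eq hδ hf hs hτ x
  have hF : HasFDerivAt (Fq δ f) (fderiv ℝ (Fq δ f) x) x :=
    ((Fq_C1 hδ hf).differentiable one_ne_zero x).hasFDerivAt
  have hH : HasFDerivAt (Hv τ (Fq δ f)) (fderiv ℝ (Hv τ (Fq δ f)) x) x :=
    ((hvF_C1 hδ hf hs hτ).differentiable one_ne_zero x).hasFDerivAt
  have hH0 : Hv τ (Fq δ f) x ≠ 0 :=
    ((Real.sqrt_pos.2 hδ).trans_le (hv_ge hδ hf hs hτ x)).ne'
  have h2 := (((hF.log (Fq_pos hδ x).ne').sub (hH.log hH0)).const_mul a).exp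
  rw [mm_eq hδ hf hs hτ x]
  unfold LTd.pd
  have h3 : fderiv ℝ (fun x => DD' τ δ f x ^ a) x =
      Real.exp (a * (Real.log (Fq δ f x) - Real.log (Hv τ (Fq δ f) x))) •
        a • ((Fq δ f x)⁻¹ • fderiv ℝ (Fq δ f) x -
          (Hv τ (Fq δ f) x)⁻¹ • fderiv ℝ (Hv τ (Fq δ f)) x) := by
    rw [h1]
    exact h2.fderiv
  rw [h3]
  simp only [ContinuousLinearMap.sub_apply, ContinuousLinearMap.smul_apply, smul_eq_mul]

/-- The multiplier tends to one with its derivatives, uniformly. -/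
lemma mm_lim {a η : ℝ} (ha : 0 < a) (ha1 : a ≤ 1) (hη : 0 < η) :
    ∀ᶠ τ in 𝓝[>] (0 : ℝ), ∀ x, |DD' τ δ f x ^ a - 1| ≤ η ∧
      ∀ k, |LTd.pd k (fun x => DD' τ δ f x ^ a) x| ≤ η := by
  have hC := t_CON d (Ps δ f) (Ps_C1 hδ hf) (Ps_supp hs)
  have hsδ : 0 < √δ := Real.sqrt_pos.2 hδ
  -- a bound for the derivatives
  obtain ⟨B, hB0, hB⟩ : ∃ B : ℝ, 0 ≤ B ∧ ∀ k x, |LTd.pd k (Fq δ f) x| ≤ B := by
    have h1 : ∀ k : Fin d, ∃ B : ℝ, ∀ x, ‖LTd.pd k (Ps δ f) x‖ ≤ B := fun k =>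
      (dir_cont (Ps_C1 hδ hf) _).bounded_above_of_compact_support (dir_supp (Ps_supp hs) _)
    choose B hB using h1
    refine ⟨∑ k, |B k|, Finset.sum_nonneg fun _ _ => abs_nonneg _, fun k x => ?_⟩
    rw [← pd_Ps hδ hf, ← Real.norm_eq_abs]
    refine (hB k x).trans ((le_abs_self _).trans ?_)
    exact Finset.single_le_sum (f := fun k => |B k|) (fun _ _ => abs_nonneg _)
      (Finset.mem_univ k)
  set η' := min η 1 with hη'
  have hη'0 : 0 < η' := lt_min hη one_pos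
  set A := B / δ + 1 / √δ with hA
  have hA0 : 0 < A := by positivity
  have hA1 : 1 / √δ ≤ A := by
    rw [hA]
    have : 0 ≤ B / δ := by positivity
    linarith
  set e := η' / (2 * A) with he
  have he0 : 0 < e := by positivity
  have heA : e * A = η' / 2 := by
    rw [he]
    field_simp
  have hes : e / √δ ≤ η' / 2 := by
    rw [← heA, div_eq_mul_one_div]
    exact mul_le_mul_of_nonneg_left hA1 he0.le
  obtain ⟨τ₀, hτ₀, h1⟩ := hC.2 e he0
  rw [ev_iff]
  refine ⟨τ₀, hτ₀, fun τ hτ hττ x => ?_⟩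
  have hH := hv_ge hδ hf hs hτ x
  have hH0 : 0 < Hv τ (Fq δ f) x := hsδ.trans_le hH
  have hF := Fq_ge (δ := δ) (f := f) x
  have hF0 := Fq_pos hδ (f := f) x
  have h2 : |Fq δ f x - Hv τ (Fq δ f) x| ≤ e := by
    have h3 := (h1 τ hτ hττ x).1
    rw [abs_sub_comm, hv_Fq hδ hf hs hτ]
    have h4 : √δ + Hv τ (Ps δ f) x - Fq δ f x = Hv τ (Ps δ f) x - Ps δ f x := by
      unfold Fq Ps
      ring
    rw [h4]
    exact h3
  have hD : DD' τ δ f x = Fq δ f x / Hv τ (Fq δ f) x := rfl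
  have hD0 : 0 < DD' τ δ f x := by rw [hD]; exact div_pos hF0 hH0
  have hD1 : |DD' τ δ f x - 1| ≤ η' / 2 := by
    have h3 : DD' τ δ f x - 1 = (Fq δ f x - Hv τ (Fq δ f) x) / Hv τ (Fq δ f) x := by
      rw [hD]
      field_simp
    rw [h3, abs_div, abs_of_pos hH0]
    refine le_trans ?_ hes
    exact div_le_div₀ he0.le h2 hsδ hH
  have hm1 : |DD' τ δ f x ^ a - 1| ≤ η' / 2 := by
    refine le_trans ?_ hD1
    rcases le_total 1 (DD' τ δ f x) with h | h
    · have h3 : 1 ≤ DD' τ δ f x ^ a := Real.one_le_rpow h ha.le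
      have h4 : DD' τ δ f x ^ a ≤ DD' τ δ f x := by
        calc DD' τ δ f x ^ a ≤ DD' τ δ f x ^ (1 : ℝ) := Real.rpow_le_rpow_of_exponent_le h ha1
          _ = _ := Real.rpow_one _
      rw [abs_of_nonneg (by linarith), abs_of_nonneg (by linarith)]
      linarith
    · have h3 : DD' τ δ f x ^ a ≤ 1 := Real.rpow_le_one hD0.le h ha.le
      have h4 : DD' τ δ f x ≤ DD' τ δ f x ^ a := by
        calc DD' τ δ f x = DD' τ δ f x ^ (1 : ℝ) := (Real.rpow_one _).symm
          _ ≤ _ := Real.rpow_le_rpow_of_exponent_ge hD0 h ha1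
      rw [abs_of_nonpos (by linarith), abs_of_nonpos (by linarith)]
      linarith
  have hηη : η' ≤ η := min_le_left _ _
  have hη1 : η' ≤ 1 := min_le_right _ _
  refine ⟨by linarith, fun k => ?_⟩
  rw [pd_mm hδ hf hs hτ]
  have hm2 : DD' τ δ f x ^ a ≤ 2 := by
    have := (abs_le.1 hm1).2
    linarith
  have hm0 : 0 ≤ DD' τ δ f x ^ a := Real.rpow_nonneg hD0.le _
  have h5 : |LTd.pd k (Fq δ f) x - LTd.pd k (Hv τ (Fq δ f)) x| ≤ e := by
    have h6 := (h1 τ hτ hττ x).2 k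
    rw [abs_sub_comm, pd_hvF hδ hf hs hτ, ← pd_Ps hδ hf]
    exact h6
  have h6 : (Fq δ f x)⁻¹ * LTd.pd k (Fq δ f) x -
      (Hv τ (Fq δ f) x)⁻¹ * LTd.pd k (Hv τ (Fq δ f)) x =
      LTd.pd k (Fq δ f) x * (Hv τ (Fq δ f) x - Fq δ f x) / (Fq δ f x * Hv τ (Fq δ f) x) +
        (LTd.pd k (Fq δ f) x - LTd.pd k (Hv τ (Fq δ f)) x) / Hv τ (Fq δ f) x := by
    field_simp
    ring
  have h7 : |(Fq δ f x)⁻¹ * LTd.pd k (Fq δ f) x -
      (Hv τ (Fq δ f) x)⁻¹ * LTd.pd k (Hv τ (Fq δ f)) x| ≤ e * A := by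
    rw [h6]
    refine (abs_add_le _ _).trans ?_
    rw [abs_div, abs_div, abs_mul, abs_of_pos hH0, abs_of_pos (mul_pos hF0 hH0)]
    have h8 : |LTd.pd k (Fq δ f) x| * |Hv τ (Fq δ f) x - Fq δ f x| /
        (Fq δ f x * Hv τ (Fq δ f) x) ≤ B * e / δ := by
      apply div_le_div₀ (by positivity)
      · refine mul_le_mul (hB k x) ?_ (abs_nonneg _) hB0
        rw [abs_sub_comm]
        exact h2
      · exact hδ
      · calc δ = √δ * √δ := (Real.mul_self_sqrt hδ.le).symm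
          _ ≤ _ := mul_le_mul hF hH hsδ.le hF0.le
    have h9 : |LTd.pd k (Fq δ f) x - LTd.pd k (Hv τ (Fq δ f)) x| / Hv τ (Fq δ f) x ≤ e / √δ :=
      div_le_div₀ he0.le h5 hsδ hH
    calc _ ≤ B * e / δ + e / √δ := add_le_add h8 h9
      _ = e * A := by rw [hA]; ring
  rw [abs_mul, abs_of_nonneg hm0, abs_mul, abs_of_pos ha]
  calc DD' τ δ f x ^ a * (a * |(Fq δ f x)⁻¹ * LTd.pd k (Fq δ f) x -
      (Hv τ (Fq δ f) x)⁻¹ * LTd.pd k (Hv τ (Fq δ f)) x|) ≤ 2 * (1 * (e * A)) := by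
        apply mul_le_mul hm2 _ (by positivity) (by norm_num)
        exact mul_le_mul ha1 h7 (abs_nonneg _) (by norm_num)
    _ = η' := by rw [heA]; ring
    _ ≤ η := hηη

omit hδ hf hs in
lemma pw_ineq {m u v w η : ℝ} (hη : 0 ≤ η) (hη1 : η ≤ 1) (hm : |m - 1| ≤ η) (hw : |w| ≤ η) :
    (m * u + v * w) ^ 2 ≤ (1 + 5 * η) * u ^ 2 + 3 * η * v ^ 2 := by
  have h1 : |m| ≤ 1 + η := by
    have h2 := abs_le.1 hm
    rw [abs_le]
    constructor <;> linarith [h2.1, h2.2]
  have h2 : |m * u + v * w| ≤ (1 + η) * |u| + η * |v| := by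
    refine (abs_add_le _ _).trans ?_
    rw [abs_mul, abs_mul]
    have h3 := mul_le_mul_of_nonneg_right h1 (abs_nonneg u)
    have h4 := mul_le_mul_of_nonneg_left hw (abs_nonneg v)
    linarith
  have h3 : (m * u + v * w) ^ 2 ≤ ((1 + η) * |u| + η * |v|) ^ 2 := by
    rw [← sq_abs (m * u + v * w)]
    exact pow_le_pow_left₀ (abs_nonneg _) h2 2
  refine h3.trans ?_
  have h4 : 2 * (|u| * |v|) ≤ |u| ^ 2 + |v| ^ 2 := by
    have := two_mul_le_add_sq |u| |v|
    linarith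
  have h5 : (1 + η) * η * (2 * (|u| * |v|)) ≤ (1 + η) * η * (|u| ^ 2 + |v| ^ 2) :=
    mul_le_mul_of_nonneg_left h4 (by positivity)
  have h6 : η ^ 2 ≤ η := by nlinarith
  rw [← sq_abs u, ← sq_abs v]
  have h7 : 0 ≤ |u| ^ 2 := by positivity
  have h8 : 0 ≤ |v| ^ 2 := by positivity
  have h9 := mul_le_mul_of_nonneg_right h6 h7
  have h10 := mul_le_mul_of_nonneg_right h6 h8
  nlinarith

end

theorem t_LOW2 : S_LOW2 := by
  intro d n f hf hs δ a ε hδ ha ha1 hε
  rw [← ev_iff (P := fun τ => (∫ x, den f x) + τ * (2 * a * (1 / 4 * fis δ f) - kin f - ε) ≤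
      ∑ i, ∫ x, ∫ y, f i x * (DD' τ δ f x ^ a * (G τ (x - y) * DD' τ δ f y ^ a) * f i y))]
  have hden := dn_C1 hf
  have hdens := dn_supp hs
  have iden : Integrable (den f) := hden.continuous.integrable_of_hasCompactSupport hdens
  have hden0 : 0 ≤ ∫ x, den f x := integral_nonneg fun x => dn_nn f x
  -- the kinetic energies
  have ipd : ∀ i, Integrable fun x => ∑ k, LTd.pd k (f i) x ^ 2 := by
    intro i
    apply integrable_finsetSum
    intro k _
    exact ((dir_cont (hf i) _).pow 2).integrable_of_hasCompactSupport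
      (sq_supp (dir_supp (hs i) _))
  have hkin : kin f = ∑ i, ∫ x, ∑ k, LTd.pd k (f i) x ^ 2 := by
    rw [kin, ← integral_finsetSum _ fun i _ => ipd i]
    congr 1
    funext x
    exact Finset.sum_comm
  have hkin0 : 0 ≤ kin f := integral_nonneg fun x =>
    Finset.sum_nonneg fun k _ => Finset.sum_nonneg fun i _ => sq_nonneg _
  set K := 5 * kin f + 3 * d * ∫ x, den f x with hK
  have hK0 : 0 ≤ K := by positivity
  set η := min 1 (ε / 2 / (K + 1)) with hη
  have hη0 : 0 < η := lt_min one_pos (by positivity)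
  have hη1 : η ≤ 1 := min_le_left _ _
  have hηK : η * K ≤ ε / 2 := by
    have h1 : η ≤ ε / 2 / (K + 1) := min_le_right _ _
    have h2 : η * (K + 1) ≤ ε / 2 := by
      rw [← le_div_iff₀ (by positivity)]
      exact h1
    nlinarith
  have hev1 := mm_lim hδ hf hs ha ha1 hη0
  have hDIF := t_DIF d (Ph δ f) (Ps δ f) (Ph_C1 hδ hf) (Ps_C1 hδ hf) (Ph_supp hs) (Ps_supp hs)
  have hlow := fis_le_lim hδ hf hs
  have hev2 : ∀ᶠ τ in 𝓝[>] (0 : ℝ), 1 / 4 * fis δ f - ε / 4 <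
      τ⁻¹ * ∫ x, Ph δ f x * (Ps δ f x - Hv τ (Ps δ f) x) :=
    hDIF.eventually_const_lt (by linarith)
  filter_upwards [hev1, hev2, self_mem_nhdsWithin] with τ h1 h2 hτ
  have hτ : (0 : ℝ) < τ := hτ
  set m : (Fin d → ℝ) → ℝ := fun x => DD' τ δ f x ^ a with hm
  have hmC : ContDiff ℝ 1 m := mm_C1 hδ hf hs hτ
  set g : Fin n → (Fin d → ℝ) → ℝ := fun i x => m x * f i x with hg
  have hgC : ∀ i, ContDiff ℝ 1 (g i) := fun i => hmC.mul (hf i)
  have hgs : ∀ i, HasCompactSupport (g i) := fun i => (hs i).mul_left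
  have hrhs : ∀ i, ∫ x, ∫ y, f i x * (DD' τ δ f x ^ a * (G τ (x - y) * DD' τ δ f y ^ a) *
      f i y) = ∫ x, ∫ y, g i x * (G τ (x - y) * g i y) := by
    intro i
    congr 1
    funext x
    congr 1
    funext y
    simp only [hg, hm]
    ring
  simp only [hrhs]
  have hL : ∀ i, (∫ x, g i x ^ 2) - τ * (∫ x, ∑ k, LTd.pd k (g i) x ^ 2) ≤
      ∫ x, ∫ y, g i x * (G τ (x - y) * g i y) := fun i => t_LOW d τ hτ (g i) (hgC i) (hgs i)
  have hsum := Finset.sum_le_sum fun i (_ : i ∈ Finset.univ) => hL i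
  rw [Finset.sum_sub_distrib, ← Finset.mul_sum] at hsum
  refine le_trans ?_ hsum
  -- the kinetic part
  have hkg : ∑ i, ∫ x, ∑ k, LTd.pd k (g i) x ^ 2 ≤ kin f + ε / 2 := by
    have h3 : ∀ i, ∫ x, ∑ k, LTd.pd k (g i) x ^ 2 ≤
        (1 + 5 * η) * (∫ x, ∑ k, LTd.pd k (f i) x ^ 2) + 3 * η * d * ∫ x, f i x ^ 2 := by
      intro i
      have isq : Integrable fun x => f i x ^ 2 :=
        ((hf i).continuous.pow 2).integrable_of_hasCompactSupport (sq_supp (hs i))
      rw [← integral_const_mul, ← integral_const_mul, ← integral_add ((ipd i).const_mul _)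
        (isq.const_mul _)]
      refine integral_mono ?_ (((ipd i).const_mul _).add (isq.const_mul _)) ?_
      · apply integrable_finsetSum
        intro k _
        exact ((dir_cont (hgC i) _).pow 2).integrable_of_hasCompactSupport
          (sq_supp (dir_supp (hgs i) _))
      · intro x
        beta_reduce
        have h4 : ∀ k, LTd.pd k (g i) x ^ 2 ≤
            (1 + 5 * η) * LTd.pd k (f i) x ^ 2 + 3 * η * f i x ^ 2 := by
          intro k
          have h5 : LTd.pd k (g i) x = m x * LTd.pd k (f i) x + f i x * LTd.pd k m x := by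
            have h6 : HasFDerivAt m (fderiv ℝ m x) x :=
              (hmC.differentiable one_ne_zero x).hasFDerivAt
            have h7 : HasFDerivAt (f i) (fderiv ℝ (f i) x) x :=
              ((hf i).differentiable one_ne_zero x).hasFDerivAt
            have h8 : fderiv ℝ (g i) x = m x • fderiv ℝ (f i) x + f i x • fderiv ℝ m x :=
              (h6.mul h7).fderiv
            unfold LTd.pd
            rw [h8]
            simp only [ContinuousLinearMap.add_apply, ContinuousLinearMap.smul_apply, smul_eq_mul]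
          rw [h5]
          exact pw_ineq hη0.le hη1 (h1 x).1 ((h1 x).2 k)
        refine (Finset.sum_le_sum fun k (_ : k ∈ Finset.univ) => h4 k).trans (le_of_eq ?_)
        rw [Finset.sum_add_distrib, ← Finset.mul_sum, Finset.sum_const, Finset.card_univ,
          Fintype.card_fin, nsmul_eq_mul]
        ring
    refine (Finset.sum_le_sum fun i (_ : i ∈ Finset.univ) => h3 i).trans ?_
    rw [Finset.sum_add_distrib, ← Finset.mul_sum, ← Finset.mul_sum, ← hkin]
    have h4 : ∑ i, ∫ x, f i x ^ 2 = ∫ x, den f x := by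
      rw [← integral_finsetSum]
      · rfl
      · intro i _
        exact ((hf i).continuous.pow 2).integrable_of_hasCompactSupport (sq_supp (hs i))
    rw [h4]
    have h5 : (1 + 5 * η) * kin f + 3 * η * d * ∫ x, den f x = kin f + η * K := by
      rw [hK]
      ring
    rw [h5]
    linarith
  -- the mass
  have hmass : (∫ x, den f x) + 2 * a * ∫ x, Ph δ f x * (Ps δ f x - Hv τ (Ps δ f) x) ≤
      ∑ i, ∫ x, g i x ^ 2 := by
    have ig : ∀ i, Integrable fun x => g i x ^ 2 := fun i =>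
      ((hgC i).continuous.pow 2).integrable_of_hasCompactSupport (sq_supp (hgs i))
    have ip : Integrable fun x => Ph δ f x * (Ps δ f x - Hv τ (Ps δ f) x) := by
      apply Continuous.integrable_of_hasCompactSupport
      · exact (Ph_C1 hδ hf).continuous.mul ((Ps_C1 hδ hf).continuous.sub
          (hv_contDiff hτ (Ps_C1 hδ hf) (Ps_supp hs)).continuous)
      · exact (Ph_supp hs).mul_right
    rw [← integral_finsetSum _ fun i _ => ig i, ← integral_const_mul,
      ← integral_add iden (ip.const_mul _)]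
    refine integral_mono (iden.add (ip.const_mul _)) (integrable_finsetSum _ fun i _ => ig i) ?_
    intro x
    beta_reduce
    have hF0 := Fq_pos hδ (f := f) x
    have hH0 : 0 < Hv τ (Fq δ f) x := (Real.sqrt_pos.2 hδ).trans_le (hv_ge hδ hf hs hτ x)
    have h3 : ∑ i, g i x ^ 2 = m x ^ 2 * den f x := by
      simp only [hg, mul_pow]
      rw [← Finset.mul_sum]
      rfl
    rw [h3]
    have h4 : 1 + 2 * a * ((Fq δ f x - Hv τ (Fq δ f) x) / Fq δ f x) ≤ m x ^ 2 := by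
      have h5 : m x = Real.exp (a * (Real.log (Fq δ f x) - Real.log (Hv τ (Fq δ f) x))) :=
        mm_eq hδ hf hs hτ x
      have h6 : m x ^ 2 = Real.exp (2 * a * Real.log (Fq δ f x / Hv τ (Fq δ f) x)) := by
        rw [h5, ← Real.exp_nat_mul, Real.log_div hF0.ne' hH0.ne']
        congr 1
        push_cast
        ring
      rw [h6]
      have h7 := Real.one_sub_inv_le_log_of_pos (div_pos hF0 hH0)
      have h8 : 1 - (Fq δ f x / Hv τ (Fq δ f) x)⁻¹ =
          (Fq δ f x - Hv τ (Fq δ f) x) / Fq δ f x := by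
        rw [inv_div]
        field_simp
      rw [h8] at h7
      have h9 := Real.add_one_le_exp (2 * a * Real.log (Fq δ f x / Hv τ (Fq δ f) x))
      have h10 := mul_le_mul_of_nonneg_left h7 (by positivity : (0:ℝ) ≤ 2 * a)
      linarith
    have h5 := mul_le_mul_of_nonneg_right h4 (dn_nn f x)
    refine le_trans (le_of_eq ?_) h5
    have h6 : Fq δ f x - Hv τ (Fq δ f) x = Ps δ f x - Hv τ (Ps δ f) x := by
      rw [hv_Fq hδ hf hs hτ]
      unfold Fq Ps
      ring
    rw [h6]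
    have h7 : Ph δ f x = den f x / Fq δ f x := rfl
    rw [h7]
    ring
  -- the conclusion
  have h3 : (1 / 4 * fis δ f - ε / 4) * τ ≤
      ∫ x, Ph δ f x * (Ps δ f x - Hv τ (Ps δ f) x) := by
    have h4 := h2.le
    rwa [inv_mul_eq_div, le_div_iff₀ hτ] at h4
  have h4 := mul_le_mul_of_nonneg_left h3 (by positivity : (0:ℝ) ≤ 2 * a)
  have h5 := mul_le_mul_of_nonneg_left hkg hτ.le
  have h6 : 2 * a * (ε / 4) * τ ≤ ε / 2 * τ := by
    apply mul_le_mul_of_nonneg_right _ hτ.le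
    nlinarith
  nlinarith

end Pool.Agent.L7h32.SC
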