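import Pool.Agent.L7h99.SC.Stm
import Pool.Agent.L7h76.LS.Low

set_option autoImplicit false

/-!
# The heat average of a continuously differentiable function with compact support
-/

open MeasureTheory Set Filter Topology Real
open scoped ENNReal Convolution

namespace Pool.Agent.L7h32.SC

open Pool.Agent.L7h99.LS Pool.Agent.L7h99.SC
open Pool.Agent.L7h76.LS (G_int G_one mom mom_int shift_supp dir_cont dir_supp)

variable {d : ℕ}

lemma ev_iff {P : ℝ → Prop} : (∀ᶠ τ in 𝓝[>] (0 : ℝ), P τ) ↔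
    ∃ τ₀ : ℝ, 0 < τ₀ ∧ ∀ τ : ℝ, 0 < τ → τ < τ₀ → P τ := by
  rw [Filter.Eventually, mem_nhdsGT_iff_exists_Ioo_subset]
  constructor
  · rintro ⟨u, hu, h⟩
    exact ⟨u, hu, fun τ h1 h2 => h ⟨h1, h2⟩⟩
  · rintro ⟨u, hu, h⟩
    exact ⟨u, hu, fun τ h1 => h τ h1.1 h1.2⟩

lemma hv_eq (τ : ℝ) (g : (Fin d → ℝ) → ℝ) (x : Fin d → ℝ) :
    Hv τ g x = ∫ z, G τ z * g (x - z) := by
  unfold Hv
  rw [← integral_sub_left_eq_self (fun y => G τ (x - y) * g y) volume x]
  simp only [sub_sub_cancel]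

lemma hv_conv (τ : ℝ) (g : (Fin d → ℝ) → ℝ) :
    Hv τ g = (G τ) ⋆[ContinuousLinearMap.mul ℝ ℝ, volume] g := by
  funext x
  rw [hv_eq]
  rfl

lemma int_G_mul {τ : ℝ} (hτ : 0 < τ) {h : (Fin d → ℝ) → ℝ} (hc : Continuous h) {M : ℝ}
    (hM : ∀ z, |h z| ≤ M) : Integrable fun z => G τ z * h z := by
  refine ((G_int hτ).mul_const M).mono' ((G_cont τ).mul hc).aestronglyMeasurable
    (ae_of_all _ fun z => ?_)
  rw [norm_mul, Real.norm_of_nonneg (G_nonneg _ _), Real.norm_eq_abs]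
  exact mul_le_mul_of_nonneg_left (hM z) (G_nonneg _ _)

lemma norm_sq_le (z : Fin d → ℝ) : ‖z‖ ^ 2 ≤ ∑ i, z i * z i := by
  have h0 : 0 ≤ ∑ i, z i * z i := Finset.sum_nonneg fun i _ => mul_self_nonneg _
  have h1 : ‖z‖ ≤ √(∑ i, z i * z i) := by
    rw [pi_norm_le_iff_of_nonneg (Real.sqrt_nonneg _)]
    intro i
    rw [Real.norm_eq_abs]
    apply Real.abs_le_sqrt
    rw [sq]
    exact Finset.single_le_sum (f := fun i => z i * z i) (fun i _ => mul_self_nonneg _)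
      (Finset.mem_univ i)
  calc ‖z‖ ^ 2 ≤ √(∑ i, z i * z i) ^ 2 := pow_le_pow_left₀ (norm_nonneg _) h1 2
    _ = _ := Real.sq_sqrt h0

/-- Uniform convergence of the heat averages. -/
lemma hv_unif {g : (Fin d → ℝ) → ℝ} (hg : Continuous g) (hs : HasCompactSupport g) {ε : ℝ}
    (hε : 0 < ε) : ∀ᶠ τ in 𝓝[>] (0 : ℝ), ∀ x, |Hv τ g x - g x| ≤ ε := by
  obtain ⟨M, hM⟩ := hg.bounded_above_of_compact_support hs
  have hM0 : 0 ≤ M := (norm_nonneg _).trans (hM 0)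
  have huc : UniformContinuous g := hs.uniformContinuous_of_continuous hg
  obtain ⟨δ, hδ, hδ'⟩ := Metric.uniformContinuous_iff.1 huc (ε / 2) (by positivity)
  have hpt : ∀ x z : Fin d → ℝ, |g (x - z) - g x| ≤ ε / 2 + 2 * M / δ ^ 2 * ∑ i, z i * z i := by
    intro x z
    have h0 : 0 ≤ ∑ i, z i * z i := Finset.sum_nonneg fun i _ => mul_self_nonneg _
    by_cases hz : ‖z‖ < δ
    · have h1 := hδ' (a := x - z) (b := x) (by
        rw [dist_eq_norm, sub_sub_cancel_left, norm_neg]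
        exact hz)
      rw [Real.dist_eq] at h1
      have h2 : 0 ≤ 2 * M / δ ^ 2 * ∑ i, z i * z i := by positivity
      linarith
    · have h1 : |g (x - z) - g x| ≤ 2 * M := by
        have h2 := abs_sub (g (x - z)) (g x)
        have h3 := hM (x - z)
        have h4 := hM x
        rw [Real.norm_eq_abs] at h3 h4
        linarith
      have h2 : δ ^ 2 ≤ ∑ i, z i * z i :=
        (pow_le_pow_left₀ hδ.le (not_lt.1 hz) 2).trans (norm_sq_le z)
      have h3 : 2 * M ≤ 2 * M / δ ^ 2 * ∑ i, z i * z i := by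
        rw [div_mul_eq_mul_div, le_div_iff₀ (by positivity)]
        exact mul_le_mul_of_nonneg_left h2 (by positivity)
      linarith
  rw [ev_iff]
  refine ⟨ε / 2 / (4 * M * d / δ ^ 2 + 1), by positivity, ?_⟩
  intro τ hτ hτ0 x
  have i1 : Integrable fun z => G τ z * g (x - z) := by
    refine int_G_mul hτ (hg.comp (by fun_prop)) (M := M) fun z => ?_
    have := hM (x - z)
    rwa [Real.norm_eq_abs] at this
  have i2 : Integrable fun z : Fin d → ℝ => G τ z * g x := (G_int hτ).mul_const _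
  have h1 : Hv τ g x - g x = ∫ z, G τ z * (g (x - z) - g x) := by
    simp only [mul_sub]
    rw [integral_sub i1 i2, integral_mul_const, G_one hτ, one_mul, hv_eq]
  have i3 : Integrable fun z : Fin d → ℝ => ∑ i, z i * z i * G τ z :=
    integrable_finsetSum _ fun i _ => mom_int hτ i i
  have i4 : Integrable fun z : Fin d → ℝ =>
      ε / 2 * G τ z + 2 * M / δ ^ 2 * ∑ i, z i * z i * G τ z :=
    ((G_int hτ).const_mul _).add (i3.const_mul _)
  have h2 : ∫ z : Fin d → ℝ, (ε / 2 * G τ z + 2 * M / δ ^ 2 * ∑ i, z i * z i * G τ z) =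
      ε / 2 + 2 * M / δ ^ 2 * (d * (2 * τ)) := by
    rw [integral_add ((G_int hτ).const_mul _) (i3.const_mul _), integral_const_mul,
      integral_const_mul, G_one hτ, mul_one, integral_finsetSum _ fun i _ => mom_int hτ i i]
    simp only [mom hτ, if_true, Finset.sum_const, Finset.card_univ, Fintype.card_fin,
      nsmul_eq_mul]
  have h3 : |∫ z, G τ z * (g (x - z) - g x)| ≤ ε / 2 + 2 * M / δ ^ 2 * (d * (2 * τ)) := by
    rw [← h2, ← Real.norm_eq_abs]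
    refine norm_integral_le_of_norm_le i4 (ae_of_all _ fun z => ?_)
    rw [norm_mul, Real.norm_of_nonneg (G_nonneg _ _), Real.norm_eq_abs]
    refine (mul_le_mul_of_nonneg_left (hpt x z) (G_nonneg _ _)).trans (le_of_eq ?_)
    rw [← Finset.sum_mul]
    ring
  rw [h1]
  refine h3.trans ?_
  have h4 : (4 * M * d / δ ^ 2 + 1) * τ < ε / 2 := by
    rw [mul_comm]
    exact (lt_div_iff₀ (by positivity)).1 hτ0
  have h5 : 2 * M / δ ^ 2 * (d * (2 * τ)) = (4 * M * d / δ ^ 2) * τ := by ring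
  rw [h5]
  linarith

lemma G_loc {τ : ℝ} (hτ : 0 < τ) : LocallyIntegrable (G τ : (Fin d → ℝ) → ℝ) volume :=
  (G_int hτ).locallyIntegrable

lemma hv_contDiff {τ : ℝ} (hτ : 0 < τ) {ψ : (Fin d → ℝ) → ℝ} (hψ : ContDiff ℝ 1 ψ)
    (hs : HasCompactSupport ψ) : ContDiff ℝ 1 (Hv τ ψ) := by
  rw [hv_conv]
  exact hs.contDiff_convolution_right (n := 1) _ (G_loc hτ) hψ

lemma pd_hv {τ : ℝ} (hτ : 0 < τ) {ψ : (Fin d → ℝ) → ℝ} (hψ : ContDiff ℝ 1 ψ)
    (hs : HasCompactSupport ψ) (k : Fin d) : LTd.pd k (Hv τ ψ) = Hv τ (LTd.pd k ψ) := by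
  funext x
  have h1 := hs.hasFDerivAt_convolution_right (ContinuousLinearMap.mul ℝ ℝ) (G_loc hτ) hψ x
  rw [LTd.pd, hv_conv τ ψ, h1.fderiv, convolution_precompR_apply _ (G_loc hτ)
    (hs.fderiv ℝ) (hψ.continuous_fderiv one_ne_zero), hv_conv]
  rfl

theorem t_CON : S_CON := by
  intro d ψ hψ hs
  refine ⟨fun τ hτ => hv_contDiff hτ hψ hs, fun ε hε => ?_⟩
  rw [← ev_iff (P := fun τ => ∀ x, |Hv τ ψ x - ψ x| ≤ ε ∧
    ∀ k, |LTd.pd k (Hv τ ψ) x - LTd.pd k ψ x| ≤ ε)]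
  have h1 := hv_unif hψ.continuous hs hε
  have h2 : ∀ᶠ τ in 𝓝[>] (0 : ℝ), ∀ k : Fin d, ∀ x, |Hv τ (LTd.pd k ψ) x - LTd.pd k ψ x| ≤ ε := by
    rw [eventually_all]
    intro k
    exact hv_unif (dir_cont hψ _) (dir_supp hs _) hε
  filter_upwards [h1, h2, self_mem_nhdsWithin] with τ h1 h2 hτ x
  refine ⟨h1 x, fun k => ?_⟩
  rw [pd_hv hτ hψ hs]
  exact h2 k x

end Pool.Agent.L7h32.SC
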