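import Pool.Agent.L7h32.SC.Cnv

set_option autoImplicit false

/-!
# The derivative at time zero of the form of the heat semigroup
-/

open MeasureTheory Set Filter Topology Real
open scoped ENNReal

namespace Pool.Agent.L7h32.SC

open Pool.Agent.L7h99.LS Pool.Agent.L7h99.SC
open Pool.Agent.L7h76.LS (G_int G_one mom mom_int shift_supp dir_cont dir_supp sq_supp D_le Am
  Q_eq fderiv_sum)

variable {d : ℕ}

/-- The form of the differences. -/
noncomputable def S2 (φ ψ : (Fin d → ℝ) → ℝ) (z : Fin d → ℝ) : ℝ :=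
  ∫ x, (φ x - φ (x - z)) * (ψ x - ψ (x - z))

lemma form_eq {τ : ℝ} (hτ : 0 < τ) {φ ψ : (Fin d → ℝ) → ℝ} (hφ : Continuous φ)
    (hψ : Continuous ψ) (hsφ : HasCompactSupport φ) (hsψ : HasCompactSupport ψ) :
    ∫ x, φ x * (ψ x - Hv τ ψ x) = 1 / 2 * ∫ z, G τ z * S2 φ ψ z := by
  obtain ⟨M, hM⟩ := hψ.bounded_above_of_compact_support hsψ
  have hM' : ∀ z, |ψ z| ≤ M := fun z => by rw [← Real.norm_eq_abs]; exact hM z
  have e1 : ∀ x, φ x * (ψ x - Hv τ ψ x) = ∫ z, φ x * (G τ z * (ψ x - ψ (x - z))) := by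
    intro x
    have i1 : Integrable fun z => G τ z * ψ (x - z) :=
      int_G_mul hτ (hψ.comp (by fun_prop)) (M := M) fun z => hM' _
    have i2 : Integrable fun z : Fin d → ℝ => G τ z * ψ x := (G_int hτ).mul_const _
    rw [integral_const_mul]
    congr 1
    simp only [mul_sub]
    rw [integral_sub i2 i1, integral_mul_const, G_one hτ, one_mul, hv_eq]
  have gi : Integrable φ := hφ.integrable_of_hasCompactSupport hsφ
  have hI : Integrable (Function.uncurry fun x z : Fin d → ℝ =>
      φ x * (G τ z * (ψ x - ψ (x - z)))) (volume.prod volume) := by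
    have h1 : Integrable (fun p : (Fin d → ℝ) × (Fin d → ℝ) => φ p.1 * (2 * M * G τ p.2))
        (volume.prod volume) := gi.mul_prod ((G_int hτ).const_mul (2 * M))
    apply h1.mono
    · apply Continuous.aestronglyMeasurable
      have hG : Continuous fun p : (Fin d → ℝ) × (Fin d → ℝ) => G τ p.2 :=
        (G_cont τ).comp continuous_snd
      have h2 : Continuous fun p : (Fin d → ℝ) × (Fin d → ℝ) => ψ (p.1 - p.2) :=
        hψ.comp (by fun_prop)
      exact (hφ.comp continuous_fst).mul (hG.mul ((hψ.comp continuous_fst).sub h2))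
    · refine Filter.Eventually.of_forall fun p => ?_
      have hM0 : 0 ≤ M := (norm_nonneg _).trans (hM 0)
      simp only [Function.uncurry]
      rw [norm_mul, norm_mul, norm_mul, norm_mul, Real.norm_of_nonneg (by positivity : 0 ≤ 2 * M),
        mul_comm (2 * M)]
      refine mul_le_mul_of_nonneg_left (mul_le_mul_of_nonneg_left ?_ (norm_nonneg _))
        (norm_nonneg _)
      refine (norm_sub_le _ _).trans ?_
      have h1 := hM p.1
      have h2 := hM (p.1 - p.2)
      linarith
  simp only [e1]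
  rw [integral_integral_swap hI]
  set R : (Fin d → ℝ) → ℝ := fun z => ∫ x, φ x * (ψ x - ψ (x - z)) with hR
  have e2 : ∀ z : Fin d → ℝ, ∫ x, φ x * (G τ z * (ψ x - ψ (x - z))) = G τ z * R z := by
    intro z
    rw [hR]
    beta_reduce
    rw [← integral_const_mul]
    congr 1
    funext x
    ring
  have hI2 : Integrable fun z : Fin d → ℝ => G τ z * R z := by
    have := hI.integral_prod_right
    simp only [Function.uncurry] at this
    simpa only [e2] using this
  simp only [e2]
  have hI3 : Integrable fun z : Fin d → ℝ => G τ z * R (-z) := by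
    have h1 := hI2.comp_neg
    simpa only [G_neg] using h1
  have e3 : ∫ z, G τ z * R z = ∫ z, G τ z * R (-z) := by
    rw [← integral_neg_eq_self (fun z => G τ z * R z) volume]
    simp only [G_neg]
  have e4 : ∀ z, R z + R (-z) = S2 φ ψ z := by
    intro z
    have hsh : Continuous fun x : Fin d → ℝ => x - z := by fun_prop
    have j1 : Integrable fun x => φ x * (ψ x - ψ (x - z)) :=
      (hφ.mul (hψ.sub (hψ.comp hsh))).integrable_of_hasCompactSupport hsφ.mul_right
    have j2 : Integrable fun x => φ (x - z) * (ψ x - ψ (x - z)) :=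
      ((hφ.comp hsh).mul (hψ.sub (hψ.comp hsh))).integrable_of_hasCompactSupport
        (shift_supp hsφ z).mul_right
    have h1 : R (-z) = ∫ x, φ (x - z) * (ψ (x - z) - ψ x) := by
      rw [hR]
      beta_reduce
      rw [← integral_sub_right_eq_self (fun x => φ x * (ψ x - ψ (x - -z))) z]
      congr 1
      funext x
      rw [sub_neg_eq_add, sub_add_cancel]
    have h2 : R (-z) = - ∫ x, φ (x - z) * (ψ x - ψ (x - z)) := by
      rw [h1, ← integral_neg]
      congr 1
      funext x
      ring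
    rw [h2, ← sub_eq_add_neg, hR, S2]
    beta_reduce
    rw [← integral_sub j1 j2]
    congr 1
    funext x
    ring
  have e5 : ∫ z, G τ z * S2 φ ψ z = (∫ z, G τ z * R z) + ∫ z, G τ z * R (-z) := by
    rw [← integral_add hI2 hI3]
    congr 1
    funext z
    rw [← mul_add, e4]
  rw [e5, ← e3]
  ring

lemma G_scale {τ : ℝ} (hτ : 0 < τ) (y : Fin d → ℝ) :
    G τ (√τ • y) = (√τ ^ d)⁻¹ * G 1 y := by
  unfold G
  rw [← inv_pow, show ((√τ)⁻¹) ^ d = ∏ _i : Fin d, (√τ)⁻¹ by simp, ← Finset.prod_mul_distrib]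
  apply Finset.prod_congr rfl
  intro i _
  rw [Pi.smul_apply, smul_eq_mul, mul_pow, Real.sq_sqrt hτ.le, mul_one, ← mul_assoc,
    ← mul_inv, Real.sqrt_mul (by positivity) τ, mul_comm (√τ)]
  congr 3
  field_simp

lemma scale {τ : ℝ} (hτ : 0 < τ) (S : (Fin d → ℝ) → ℝ) :
    ∫ z, G τ z * S z = ∫ y, G 1 y * S (√τ • y) := by
  have h1 := Measure.integral_comp_smul volume (fun z : Fin d → ℝ => G τ z * S z) (√τ)
  have hs : 0 < √τ := Real.sqrt_pos.2 hτ
  have hp : 0 < (√τ ^ d)⁻¹ := by positivity
  simp only [G_scale hτ, mul_assoc, integral_const_mul, Module.finrank_fin_fun, smul_eq_mul,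
    abs_of_pos hp] at h1
  exact (mul_left_cancel₀ hp.ne' h1).symm

/-- The limit of the form of the differences. -/
lemma inner_lim {φ ψ : (Fin d → ℝ) → ℝ} (hφ : ContDiff ℝ 1 φ) (hψ : ContDiff ℝ 1 ψ)
    (hsφ : HasCompactSupport φ) (hsψ : HasCompactSupport ψ) (y : Fin d → ℝ) :
    Tendsto (fun τ : ℝ => τ⁻¹ * S2 φ ψ (√τ • y)) (𝓝[>] 0)
      (𝓝 (∫ x, fderiv ℝ φ x y * fderiv ℝ ψ x y)) := by
  have hsq : Tendsto (fun τ : ℝ => √τ) (𝓝[>] 0) (𝓝[>] 0) := by
    apply tendsto_nhdsWithin_of_tendsto_nhds_of_eventually_within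
    · have : Tendsto Real.sqrt (𝓝 0) (𝓝 (√0)) := Real.continuous_sqrt.tendsto 0
      rw [Real.sqrt_zero] at this
      exact this.mono_left nhdsWithin_le_nhds
    · filter_upwards [self_mem_nhdsWithin] with τ hτ
      exact Real.sqrt_pos.2 hτ
  obtain ⟨C, hC⟩ := hφ.lipschitzWith_of_hasCompactSupport hsφ one_ne_zero
  obtain ⟨C', hC'⟩ := hψ.lipschitzWith_of_hasCompactSupport hsψ one_ne_zero
  obtain ⟨r, hr⟩ := (hsφ.isCompact.union hsψ.isCompact).isBounded.subset_closedBall 0
  have hlim : ∀ (g : (Fin d → ℝ) → ℝ), ContDiff ℝ 1 g → ∀ x, Tendsto (fun τ : ℝ =>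
      (√τ)⁻¹ * (g x - g (x - √τ • y))) (𝓝[>] 0) (𝓝 (fderiv ℝ g x y)) := by
    intro g hg x
    have h1 : HasDerivAt (fun t : ℝ => -g (x - t • y)) (fderiv ℝ g x y) 0 := by
      have h2 : HasDerivAt (fun t : ℝ => x - t • y) (-y) 0 := by
        have := ((hasDerivAt_id (0 : ℝ)).smul_const y).const_sub x
        simpa using this
      have h3 : HasFDerivAt g (fderiv ℝ g (x - (0 : ℝ) • y)) (x - (0 : ℝ) • y) :=
        (hg.differentiable one_ne_zero _).hasFDerivAt
      have h4 := (h3.comp_hasDerivAt (0 : ℝ) h2).neg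
      simp only [map_neg, neg_neg, zero_smul, sub_zero] at h4
      exact h4
    have h2 := h1.tendsto_slope_zero_right
    have h3 := h2.comp hsq
    refine h3.congr fun τ => ?_
    simp only [Function.comp_apply, zero_add, zero_smul, sub_zero, smul_eq_mul]
    ring
  have key : Tendsto (fun τ : ℝ => ∫ x, ((√τ)⁻¹ * (φ x - φ (x - √τ • y))) *
      ((√τ)⁻¹ * (ψ x - ψ (x - √τ • y)))) (𝓝[>] 0)
      (𝓝 (∫ x, fderiv ℝ φ x y * fderiv ℝ ψ x y)) := by
    refine tendsto_integral_filter_of_dominated_convergence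
      ((Metric.closedBall (0 : Fin d → ℝ) (r + ‖y‖)).indicator
        fun _ => (C * ‖y‖) * (C' * ‖y‖)) ?_ ?_ ?_ ?_
    · refine Eventually.of_forall fun τ => ?_
      have hsh : Continuous fun x : Fin d → ℝ => x - √τ • y := by fun_prop
      exact ((continuous_const.mul (hφ.continuous.sub (hφ.continuous.comp hsh))).mul
        (continuous_const.mul (hψ.continuous.sub
          (hψ.continuous.comp hsh)))).aestronglyMeasurable
    · have h1 : ∀ᶠ τ : ℝ in 𝓝[>] 0, τ < 1 := by
        filter_upwards [Ioo_mem_nhdsGT (zero_lt_one' ℝ)] with τ hτ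
        exact hτ.2
      filter_upwards [h1, self_mem_nhdsWithin] with τ hτ1 hτ
      have hs : 0 < √τ := Real.sqrt_pos.2 hτ
      have hs1 : √τ ≤ 1 := Real.sqrt_le_one.2 hτ1.le
      refine ae_of_all _ fun x => ?_
      by_cases hx : x ∈ Metric.closedBall (0 : Fin d → ℝ) (r + ‖y‖)
      · rw [Set.indicator_of_mem hx, norm_mul]
        have hL : ∀ (g : (Fin d → ℝ) → ℝ) (c : NNReal), LipschitzWith c g →
            ‖(√τ)⁻¹ * (g x - g (x - √τ • y))‖ ≤ c * ‖y‖ := by
          intro g c hc
          have h2 := hc.dist_le_mul x (x - √τ • y)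
          rw [dist_eq_norm, dist_eq_norm, sub_sub_cancel, norm_smul, Real.norm_of_nonneg hs.le]
            at h2
          rw [norm_mul, norm_inv, Real.norm_of_nonneg hs.le, inv_mul_le_iff₀ hs]
          calc ‖g x - g (x - √τ • y)‖ ≤ c * (√τ * ‖y‖) := h2
            _ = √τ * (c * ‖y‖) := by ring
        exact mul_le_mul (hL φ C hC) (hL ψ C' hC') (norm_nonneg _) (by positivity)
      · rw [Set.indicator_of_notMem hx]
        rw [Metric.mem_closedBall, dist_zero_right, not_le] at hx
        have h2 : φ x = 0 := by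
          by_contra h3
          have h4 := hr (Or.inl (subset_tsupport _ h3))
          rw [Metric.mem_closedBall, dist_zero_right] at h4
          have := norm_nonneg y
          linarith
        have h3 : φ (x - √τ • y) = 0 := by
          by_contra h3
          have h4 := hr (Or.inl (subset_tsupport _ h3))
          rw [Metric.mem_closedBall, dist_zero_right] at h4
          have h5 : ‖x‖ ≤ ‖x - √τ • y‖ + ‖√τ • y‖ := by
            simpa using norm_add_le (x - √τ • y) (√τ • y)
          rw [norm_smul, Real.norm_of_nonneg hs.le] at h5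
          have h6 : √τ * ‖y‖ ≤ 1 * ‖y‖ := mul_le_mul_of_nonneg_right hs1 (norm_nonneg _)
          linarith
        rw [h2, h3, sub_zero, mul_zero, zero_mul, norm_zero]
    · rw [integrable_indicator_iff Metric.isClosed_closedBall.measurableSet]
      exact integrableOn_const (measure_closedBall_lt_top.ne)
    · exact ae_of_all _ fun x => (hlim φ hφ x).mul (hlim ψ hψ x)
  refine key.congr' ?_
  filter_upwards [self_mem_nhdsWithin] with τ hτ
  rw [S2, ← integral_const_mul]
  congr 1
  funext x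
  have hs : 0 < √τ := Real.sqrt_pos.2 hτ
  have h1 : τ⁻¹ = (√τ)⁻¹ * (√τ)⁻¹ := by
    rw [← mul_inv, Real.mul_self_sqrt (le_of_lt hτ)]
  rw [h1]
  ring

/-- The bound of the form of the differences. -/
lemma inner_bd {φ ψ : (Fin d → ℝ) → ℝ} (hφ : ContDiff ℝ 1 φ) (hψ : ContDiff ℝ 1 ψ)
    (hsφ : HasCompactSupport φ) (hsψ : HasCompactSupport ψ) {τ : ℝ} (hτ : 0 < τ)
    (y : Fin d → ℝ) : |τ⁻¹ * S2 φ ψ (√τ • y)| ≤
      1 / 2 * ((∑ i, ∑ j, y i * y j * Am φ i j) + ∑ i, ∑ j, y i * y j * Am ψ i j) := by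
  rw [← Q_eq hφ hsφ, ← Q_eq hψ hsψ]
  have hq : ∀ g : (Fin d → ℝ) → ℝ, ContDiff ℝ 1 g → HasCompactSupport g →
      ∫ x, (g x - g (x - √τ • y)) ^ 2 ≤ τ * ∫ x, fderiv ℝ g x y ^ 2 := by
    intro g hg hs
    have h1 := D_le hg hs (√τ • y)
    simp only [map_smul, smul_eq_mul, mul_pow, Real.sq_sqrt hτ.le, integral_const_mul] at h1
    exact h1
  have hi : ∀ g : (Fin d → ℝ) → ℝ, ContDiff ℝ 1 g → HasCompactSupport g →
      Integrable fun x => (g x - g (x - √τ • y)) ^ 2 := by
    intro g hg hs
    have hsh : Continuous fun x : Fin d → ℝ => x - √τ • y := by fun_prop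
    apply Continuous.integrable_of_hasCompactSupport
      ((hg.continuous.sub (hg.continuous.comp hsh)).pow 2)
    exact sq_supp (hs.sub (shift_supp hs _))
  have h1 : |S2 φ ψ (√τ • y)| ≤ 1 / 2 * ((∫ x, (φ x - φ (x - √τ • y)) ^ 2) +
      ∫ x, (ψ x - ψ (x - √τ • y)) ^ 2) := by
    rw [← integral_add (hi φ hφ hsφ) (hi ψ hψ hsψ), ← integral_const_mul, S2,
      ← Real.norm_eq_abs]
    refine norm_integral_le_of_norm_le (((hi φ hφ hsφ).add (hi ψ hψ hsψ)).const_mul _)
      (ae_of_all _ fun x => ?_)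
    rw [Real.norm_eq_abs, abs_mul]
    have h2 := two_mul_le_add_sq |φ x - φ (x - √τ • y)| |ψ x - ψ (x - √τ • y)|
    rw [sq_abs, sq_abs] at h2
    linarith
  rw [abs_mul, abs_of_pos (inv_pos.2 hτ), inv_mul_le_iff₀ hτ]
  have h2 := hq φ hφ hsφ
  have h3 := hq ψ hψ hsψ
  linarith

lemma S2_meas {φ ψ : (Fin d → ℝ) → ℝ} (hφ : Continuous φ) (hψ : Continuous ψ) :
    StronglyMeasurable (S2 φ ψ) := by
  have h1 : Continuous (Function.uncurry fun z x : Fin d → ℝ =>
      (φ x - φ (x - z)) * (ψ x - ψ (x - z))) := by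
    simp only [Function.uncurry_def]
    fun_prop
  exact h1.stronglyMeasurable.integral_prod_right (ν := volume)

theorem t_DIF : S_DIF := by
  intro d φ ψ hφ hψ hsφ hsψ
  set A : Fin d → Fin d → ℝ := fun i j => ∫ x, LTd.pd i φ x * LTd.pd j ψ x with hA
  have pint : ∀ i j, Integrable fun x => LTd.pd i φ x * LTd.pd j ψ x := by
    intro i j
    apply Continuous.integrable_of_hasCompactSupport
    · exact (dir_cont hφ _).mul (dir_cont hψ _)
    · exact (dir_supp hsφ _).mul_right
  have h1 : ∀ y : Fin d → ℝ, ∫ x, fderiv ℝ φ x y * fderiv ℝ ψ x y =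
      ∑ i, ∑ j, y i * y j * A i j := by
    intro y
    have h2 : ∀ x, fderiv ℝ φ x y * fderiv ℝ ψ x y =
        ∑ i, ∑ j, y i * y j * (LTd.pd i φ x * LTd.pd j ψ x) := by
      intro x
      rw [fderiv_sum, fderiv_sum, Finset.sum_mul_sum]
      apply Finset.sum_congr rfl
      intro i _
      apply Finset.sum_congr rfl
      intro j _
      ring
    simp only [h2]
    rw [integral_finsetSum]
    · apply Finset.sum_congr rfl
      intro i _
      rw [integral_finsetSum]
      · apply Finset.sum_congr rfl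
        intro j _
        rw [integral_const_mul]
      · intro j _
        exact (pint i j).const_mul _
    · intro i _
      apply integrable_finsetSum
      intro j _
      exact (pint i j).const_mul _
  have hquad : ∀ B : Fin d → Fin d → ℝ, Integrable fun y : Fin d → ℝ =>
      G 1 y * ∑ i, ∑ j, y i * y j * B i j := by
    intro B
    have h2 : (fun y : Fin d → ℝ => G 1 y * ∑ i, ∑ j, y i * y j * B i j) =
        fun y => ∑ i, ∑ j, B i j * (y i * y j * G 1 y) := by
      funext y
      rw [Finset.mul_sum]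
      apply Finset.sum_congr rfl
      intro i _
      rw [Finset.mul_sum]
      apply Finset.sum_congr rfl
      intro j _
      ring
    rw [h2]
    apply integrable_finsetSum
    intro i _
    apply integrable_finsetSum
    intro j _
    exact (mom_int one_pos i j).const_mul _
  have hval : ∫ y : Fin d → ℝ, G 1 y * ∑ i, ∑ j, y i * y j * A i j = 2 * ∑ i, A i i := by
    have h2 : (fun y : Fin d → ℝ => G 1 y * ∑ i, ∑ j, y i * y j * A i j) =
        fun y => ∑ i, ∑ j, A i j * (y i * y j * G 1 y) := by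
      funext y
      rw [Finset.mul_sum]
      apply Finset.sum_congr rfl
      intro i _
      rw [Finset.mul_sum]
      apply Finset.sum_congr rfl
      intro j _
      ring
    rw [h2, integral_finsetSum, Finset.mul_sum]
    · apply Finset.sum_congr rfl
      intro i _
      rw [integral_finsetSum]
      · simp only [integral_const_mul, mom one_pos]
        rw [Finset.sum_eq_single i]
        · rw [if_pos rfl]; ring
        · intro j _ hj
          rw [if_neg (Ne.symm hj), mul_zero]
        · intro h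
          exact absurd (Finset.mem_univ i) h
      · intro j _
        exact (mom_int one_pos i j).const_mul _
    · intro i _
      apply integrable_finsetSum
      intro j _
      exact (mom_int one_pos i j).const_mul _
  have hmain : Tendsto (fun τ : ℝ => ∫ y, G 1 y * (τ⁻¹ * S2 φ ψ (√τ • y))) (𝓝[>] 0)
      (𝓝 (∫ y, G 1 y * ∑ i, ∑ j, y i * y j * A i j)) := by
    refine tendsto_integral_filter_of_dominated_convergence (fun y => 1 / 2 *
      (G 1 y * (∑ i, ∑ j, y i * y j * Am φ i j) +
        G 1 y * ∑ i, ∑ j, y i * y j * Am ψ i j)) ?_ ?_ ?_ ?_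
    · refine Eventually.of_forall fun τ => ?_
      have h2 : Measurable fun y : Fin d → ℝ => S2 φ ψ (√τ • y) :=
        (S2_meas hφ.continuous hψ.continuous).measurable.comp (by fun_prop)
      exact ((G_cont 1).measurable.mul (h2.const_mul _)).aestronglyMeasurable
    · filter_upwards [self_mem_nhdsWithin] with τ hτ
      refine ae_of_all _ fun y => ?_
      rw [norm_mul, Real.norm_of_nonneg (G_nonneg _ _), Real.norm_eq_abs]
      refine (mul_le_mul_of_nonneg_left (inner_bd hφ hψ hsφ hsψ hτ y)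
        (G_nonneg _ _)).trans (le_of_eq ?_)
      ring
    · exact ((hquad _).add (hquad _)).const_mul _
    · refine ae_of_all _ fun y => ?_
      rw [← h1 y]
      exact (inner_lim hφ hψ hsφ hsψ y).const_mul _
  have hlast : ∫ x, ∑ k, LTd.pd k φ x * LTd.pd k ψ x = ∑ i, A i i := by
    rw [integral_finsetSum]
    intro i _
    exact pint i i
  rw [hval] at hmain
  have h2 := hmain.const_mul (1 / 2)
  rw [hlast, show (∑ i, A i i) = 1 / 2 * (2 * ∑ i, A i i) by ring]
  refine h2.congr' ?_
  filter_upwards [self_mem_nhdsWithin] with τ hτ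
  rw [form_eq hτ hφ.continuous hψ.continuous hsφ hsψ, scale hτ]
  have h3 : ∀ y : Fin d → ℝ, G 1 y * (τ⁻¹ * S2 φ ψ (√τ • y)) =
      τ⁻¹ * (G 1 y * S2 φ ψ (√τ • y)) := fun y => by ring
  simp only [h3, integral_const_mul]
  ring

end Pool.Agent.L7h32.SC
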